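import Pool.Agent.Y922.NV.Stm

/-! Project NV, part ZERO: the zeros of `M - i`. -/

set_option autoImplicit false

namespace Pool.Agent.Y776.NV

open Complex ComplexConjugate Filter Topology Pool.Agent.Y922.NV

theorem lt_norm {a : ℂ} (ha : 0 < a.im) : ‖I - a‖ < ‖I - conj a‖ := by
  rw [← sq_lt_sq₀ (norm_nonneg _) (norm_nonneg _), ← Complex.normSq_eq_norm_sq,
    ← Complex.normSq_eq_norm_sq, Complex.normSq_apply, Complex.normSq_apply]
  simp
  nlinarith

theorem D_ne {ι : Type} (s : Finset ι) (a : ι → ℂ) (hs : s.Nonempty) (ha : ∀ i ∈ s, 0 < (a i).im) :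
    QQ s a I - PP s a I ≠ 0 := by
  intro h
  have h1 : ‖QQ s a I‖ = ‖PP s a I‖ := by rw [sub_eq_zero.1 h]
  have hQ : ∀ i ∈ s, 0 < ‖I - conj (a i)‖ := fun i hi =>
    lt_of_le_of_lt (norm_nonneg _) (lt_norm (ha i hi))
  unfold QQ PP at h1
  rw [norm_prod, norm_prod] at h1
  by_cases h0 : ∃ i ∈ s, ‖I - a i‖ = 0
  · obtain ⟨i, hi, h2⟩ := h0
    have h3 : ∏ i ∈ s, ‖I - a i‖ = 0 := Finset.prod_eq_zero hi h2
    rw [h3] at h1
    exact (Finset.prod_pos hQ).ne' h1
  · push Not at h0
    have h3 : ∏ i ∈ s, ‖I - a i‖ < ∏ i ∈ s, ‖I - conj (a i)‖ :=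
      Finset.prod_lt_prod_of_nonempty
        (fun i hi => lt_of_le_of_ne (norm_nonneg _) (Ne.symm (h0 i hi)))
        (fun i hi => lt_norm (ha i hi)) hs
    linarith

theorem D_an {ι : Type} (s : Finset ι) (a : ι → ℂ) :
    Differentiable ℂ (fun z => QQ s a z - PP s a z) := by
  unfold QQ PP
  fun_prop

theorem D_ord {ι : Type} (s : Finset ι) (a : ι → ℂ) (hs : s.Nonempty) (ha : ∀ i ∈ s, 0 < (a i).im)
    (z : ℂ) : ∃ (n : ℕ) (g : ℂ → ℂ), AnalyticAt ℂ g z ∧ g z ≠ 0 ∧
      ∀ᶠ w in 𝓝 z, QQ s a w - PP s a w = (w - z) ^ n • g w := by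
  have han : AnalyticOnNhd ℂ (fun z => QQ s a z - PP s a z) Set.univ :=
    fun w _ => (D_an s a).analyticAt w
  rw [(han z (Set.mem_univ _)).exists_eventuallyEq_pow_smul_nonzero_iff]
  intro h
  have h1 := han.eqOn_zero_of_preconnected_of_eventuallyEq_zero isPreconnected_univ
    (Set.mem_univ z) h
  exact D_ne s a hs ha (h1 (Set.mem_univ I))

open Classical in
theorem P_fact {ι : Type} (s : Finset ι) (a : ι → ℂ) (z w : ℂ) :
    PP s a w = (w - z) ^ (s.filter (fun i => a i = z)).card *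
      ∏ i ∈ s.filter (fun i => ¬ a i = z), (w - a i) := by
  unfold PP
  rw [← Finset.prod_filter_mul_prod_filter_not s (fun i => a i = z)]
  congr 1
  rw [Finset.prod_congr rfl (g := fun _ => w - z)]
  · rw [Finset.prod_const]
  · intro i hi
    rw [(Finset.mem_filter.1 hi).2]

open Classical in
theorem key {ι : Type} (s : Finset ι) (a : ι → ℂ) (hs : s.Nonempty) (ha : ∀ i ∈ s, 0 < (a i).im)
    (z : ℂ) : zeroMult (fun w => MM s a w - I) z ≤ (s.filter (fun i => a i = z)).card := by
  obtain ⟨n, g, hg, hg0, hD⟩ := D_ord s a hs ha z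
  set k := (s.filter (fun i => a i = z)).card with hk
  set h : ℂ → ℂ := fun w => ∏ i ∈ s.filter (fun i => ¬ a i = z), (w - a i) with hh
  have hhan : AnalyticAt ℂ h z := by
    have : Differentiable ℂ h := by rw [hh]; fun_prop
    exact this.analyticAt z
  have hh0 : h z ≠ 0 := by
    rw [hh]
    refine Finset.prod_ne_zero_iff.2 fun i hi => ?_
    exact sub_ne_zero.2 (Ne.symm (Finset.mem_filter.1 hi).2)
  have hgne : ∀ᶠ w in 𝓝 z, g w ≠ 0 := hg.continuousAt.eventually_ne hg0
  have hev : ∀ᶠ w in 𝓝[≠] z, MM s a w - I =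
      (w - z) ^ ((k : ℤ) - n) • (2 * I * h w / g w) := by
    rw [eventually_nhdsWithin_iff]
    filter_upwards [hD, hgne] with w h1 h2 hw
    have hwz : w - z ≠ 0 := sub_ne_zero.2 hw
    have hD0 : QQ s a w - PP s a w ≠ 0 := by
      rw [h1, smul_eq_mul]
      exact mul_ne_zero (pow_ne_zero _ hwz) h2
    have e1 : MM s a w - I = 2 * I * PP s a w / (QQ s a w - PP s a w) := by
      unfold MM
      field_simp
      ring
    rw [e1, h1, P_fact s a z w, smul_eq_mul, smul_eq_mul, zpow_sub₀ hwz, zpow_natCast,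
      zpow_natCast]
    have e2 : (w - z) ^ n ≠ 0 := pow_ne_zero _ hwz
    field_simp
    rfl
  have hmer : MeromorphicAt (fun w => MM s a w - I) z := by
    refine MeromorphicAt.congr (f := fun w => (w - z) ^ ((k : ℤ) - n) • (2 * I * h w / g w)) ?_ ?_
    · have h1 : MeromorphicAt (fun w : ℂ => w - z) z := by fun_prop
      have h2 := hhan.meromorphicAt
      have h3 := hg.meromorphicAt
      exact (h1.zpow _).smul (((MeromorphicAt.const _ _).mul h2).div h3)
    · filter_upwards [hev] with w hw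
      exact hw.symm
  have hord : meromorphicOrderAt (fun w => MM s a w - I) z = (((k : ℤ) - n : ℤ) : WithTop ℤ) := by
    rw [meromorphicOrderAt_eq_int_iff hmer]
    refine ⟨fun w => 2 * I * h w / g w, ?_, ?_, hev⟩
    · exact (analyticAt_const.mul hhan).div hg hg0
    · exact div_ne_zero (mul_ne_zero (by simp) hh0) hg0
  unfold zeroMult
  rw [hord, WithTop.untop₀_coe]
  omega

open Classical in
theorem t_ZERO : S_ZERO := by
  intro ι s a hs ha U
  unfold zeroCount
  refine iSup_le fun F => ?_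
  have h1 : ∑ z ∈ F.1, zeroMult (fun w => MM s a w - I) z ≤
      ((s.filter (fun i => a i ∈ U)).card) := by
    calc _ ≤ ∑ z ∈ F.1, (s.filter (fun i => a i = z)).card :=
          Finset.sum_le_sum fun z _ => key s a hs ha z
      _ = (F.1.biUnion (fun z => s.filter (fun i => a i = z))).card := by
          rw [Finset.card_biUnion]
          intro x _ y _ hxy
          refine Finset.disjoint_left.2 fun i hi hi' => ?_
          exact hxy ((Finset.mem_filter.1 hi).2.symm.trans (Finset.mem_filter.1 hi').2)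
      _ ≤ _ := by
          apply Finset.card_le_card
          intro i hi
          rw [Finset.mem_biUnion] at hi
          obtain ⟨z, hz, hi⟩ := hi
          rw [Finset.mem_filter] at hi ⊢
          exact ⟨hi.1, by rw [hi.2]; exact F.2 hz⟩
  exact_mod_cast h1

end Pool.Agent.Y776.NV
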